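import Pool.Agent.H332.HT.Defs

/-! # Project HT, task TC: algebra of the cones T and C, slopes, half-turn, openness -/

set_option autoImplicit false

open Set

namespace Pool.Agent.H289.HT

open Pool.Agent.H332.HT

theorem T_smul {K : Set V3} {x d : V3} (hx : x ∈ K) (hd : d ∈ T K x) {c : ℝ} (hc : 0 ≤ c) :
    c • d ∈ T K x := by
  rcases hc.eq_or_lt with rfl | hc
  · exact ⟨1, one_pos, by simpa using hx⟩
  · obtain ⟨t, ht, h⟩ := hd
    refine ⟨t / c, by positivity, ?_⟩
    rw [smul_smul, div_mul_cancel₀ _ hc.ne']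
    exact h

theorem comb (x d e : V3) (s t : ℝ) (hs : 0 < s) (ht : 0 < t) :
    (t / (s + t)) • (x + s • d) + (s / (s + t)) • (x + t • e) =
      x + (s * t / (s + t)) • (d + e) := by
  have h : s + t ≠ 0 := by positivity
  rw [smul_add, smul_add, smul_smul, smul_smul, smul_add]
  have h1 : t / (s + t) * s = s * t / (s + t) := by ring
  have h2 : s / (s + t) * t = s * t / (s + t) := by ring
  rw [h1, h2]
  have h3 : (t / (s + t)) • x + (s / (s + t)) • x = x := by
    rw [← add_smul, ← add_div, add_comm t s, div_self h, one_smul]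
  calc _ = ((t / (s + t)) • x + (s / (s + t)) • x) +
      ((s * t / (s + t)) • d + (s * t / (s + t)) • e) := by abel
    _ = _ := by rw [h3]

theorem T_add {K : Set V3} (hK : Convex ℝ K) {x d e : V3} (hd : d ∈ T K x) (he : e ∈ T K x) :
    d + e ∈ T K x := by
  obtain ⟨s, hs, h1⟩ := hd
  obtain ⟨t, ht, h2⟩ := he
  refine ⟨s * t / (s + t), by positivity, ?_⟩
  rw [← comb x d e s t hs ht]
  exact hK h1 h2 (by positivity) (by positivity) (by field_simp; ring)

theorem C_add {K : Set V3} (hK : Convex ℝ K) {x d e : V3} (hd : d ∈ C K x) (he : e ∈ T K x) :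
    d + e ∈ C K x := by
  obtain ⟨s, hs, h1⟩ := hd
  obtain ⟨t, ht, h2⟩ := he
  refine ⟨s * t / (s + t), by positivity, ?_⟩
  rw [← comb x d e s t hs ht]
  exact hK.combo_interior_self_mem_interior h1 h2 (by positivity) (by positivity)
    (by field_simp; ring)

theorem C_smul {K : Set V3} {x d : V3} (hd : d ∈ C K x) {c : ℝ} (hc : 0 < c) :
    c • d ∈ C K x := by
  obtain ⟨t, ht, h⟩ := hd
  refine ⟨t / c, by positivity, ?_⟩
  rw [smul_smul, div_mul_cancel₀ _ hc.ne']
  exact h

theorem tc : S_TC := by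
  intro K hK x hx
  refine ⟨?_, fun d hd s hs => T_smul hx hd hs, fun d hd s hs => C_smul hd hs,
    fun d hd e he => T_add hK.cvx hd he, ?_, ?_, ?_⟩
  · rintro d ⟨t, ht, h⟩
    exact ⟨t, ht, interior_subset h⟩
  · intro d hd e he
    rw [add_comm]
    exact C_add hK.cvx he hd
  · intro y hy
    exact ⟨1, one_pos, by simpa using hy⟩
  · rintro d ⟨t₀, ht₀, h⟩
    refine ⟨t₀, ht₀, fun t ht hle => ?_⟩
    have e : x + t • d = (1 - t / t₀) • x + (t / t₀) • (x + t₀ • d) := by
      rw [smul_add, smul_smul, div_mul_cancel₀ _ ht₀.ne', sub_smul, one_smul]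
      abel
    rw [e]
    exact hK.cvx.combo_self_interior_mem_interior hx h
      (by rw [sub_nonneg, div_le_one ht₀]; exact hle) (by positivity) (by ring)

theorem itv (htc : S_TC) : S_itv := by
  intro K hK x hx v k₀ k₁ k k₂ h0 h1 h2 hk1 hk2
  obtain ⟨a1, a2, a3, a4, a5, a6, a7⟩ := htc K hK x hx
  by_cases hle : k ≤ k₀
  · have hd : 0 < k₀ - k₁ := by linarith
    have e : ((v, k) : V3) = ((k₀ - k) / (k₀ - k₁)) • ((v, k₁) : V3) +
        ((k - k₁) / (k₀ - k₁)) • ((v, k₀) : V3) := by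
      refine Prod.ext ?_ ?_
      · change v = ((k₀ - k) / (k₀ - k₁)) • v + ((k - k₁) / (k₀ - k₁)) • v
        rw [← add_smul, ← add_div, sub_add_sub_cancel, div_self hd.ne', one_smul]
      · change k = ((k₀ - k) / (k₀ - k₁)) * k₁ + ((k - k₁) / (k₀ - k₁)) * k₀
        field_simp
        ring
    rw [e]
    exact a5 _ (a2 _ h1 _ (div_nonneg (by linarith) hd.le)) _
      (a3 _ h0 _ (div_pos (by linarith) hd))
  · push Not at hle
    have hd : 0 < k₂ - k₀ := by linarith
    have e : ((v, k) : V3) = ((k - k₀) / (k₂ - k₀)) • ((v, k₂) : V3) +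
        ((k₂ - k) / (k₂ - k₀)) • ((v, k₀) : V3) := by
      refine Prod.ext ?_ ?_
      · change v = ((k - k₀) / (k₂ - k₀)) • v + ((k₂ - k) / (k₂ - k₀)) • v
        rw [← add_smul, ← add_div, show k - k₀ + (k₂ - k) = k₂ - k₀ by ring,
          div_self hd.ne', one_smul]
      · change k = ((k - k₀) / (k₂ - k₀)) * k₂ + ((k₂ - k) / (k₂ - k₀)) * k₀
        field_simp
        ring
    rw [e]
    exact a5 _ (a2 _ h2 _ (div_nonneg (by linarith) hd.le)) _
      (a3 _ h0 _ (div_pos (by linarith) hd))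

theorem int_symm {K : Set V3} (hK : HB K) (p : V2) (z : ℝ) (h : ((p, z) : V3) ∈ interior K) :
    ((-p, z) : V3) ∈ interior K := by
  have h1 : interior K ⊆ (fun x : V3 => ((-x.1, x.2) : V3)) ⁻¹' K := by
    intro x hx
    exact hK.symm x.1 x.2 (interior_subset hx)
  have hc : Continuous (fun x : V3 => ((-x.1, x.2) : V3)) := by fun_prop
  have h2 : (fun x : V3 => ((-x.1, x.2) : V3)) ⁻¹' interior K ⊆ interior K := by
    apply interior_maximal _ (isOpen_interior.preimage hc)
    intro x hx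
    have h3 := hK.symm _ _ (interior_subset hx)
    simpa using h3
  apply h2
  change ((- -p, z) : V3) ∈ interior K
  rw [neg_neg]
  exact h

theorem sym : S_sym := by
  rintro K hK p v z k ⟨t, ht, h⟩
  refine ⟨t, ht, ?_⟩
  have h1 : ((p + t • v, z + t • k) : V3) ∈ interior K := h
  have h2 := int_symm hK _ _ h1
  have e : ((-(p + t • v), z + t • k) : V3) = (-p, z) + t • ((-v, k) : V3) := by
    refine Prod.ext ?_ rfl
    change -(p + t • v) = -p + t • (-v)
    rw [smul_neg, neg_add]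
  rw [← e]
  exact h2

theorem cop : S_Cop := by
  intro K
  have e : {y : V3 × V3 | y.2 ∈ C K y.1} =
      ⋃ t ∈ Ioi (0 : ℝ), (fun y : V3 × V3 => y.1 + t • y.2) ⁻¹' interior K := by
    ext y
    simp only [mem_iUnion, mem_preimage, mem_Ioi, mem_ofPred_eq, exists_prop]
    rfl
  rw [e]
  refine isOpen_biUnion fun t _ => isOpen_interior.preimage ?_
  fun_prop

end Pool.Agent.H289.HT
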